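import Pool.Agent.Lib.DMA.GFin

/-! # MP_e4d6a1_an: the finite energy criterion in the domain of the Monge–Ampère operator

Let `(X, ω)` be a compact Kähler manifold of dimension `n ≥ 1` and `φ ∈ DMA(X, ω)` with
Monge–Ampère measure `μ`.  Then the restriction of `μ` to `{φ > -∞}` is the non-pluripolar measure:
`1_{φ > -τ} μ = 1_{φ > -τ} (ω + dd^c max(φ, -τ))^n` for every `τ`.  In particular, if `μ` does not
charge `{φ = -∞}` then `φ ∈ E(X, ω)`.

Proof (all mixed Monge–Ampère measures are those of bounded `ω`-psh functions, `φ_t = max(φ, -t)`).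
(A) Comparing `φ_t` with `max(φ, -t + ε v)`, `v` smooth, the hypothesis `φ ∈ DMA` gives
`∫_{φ ≤ -t} ω^{n-k} ∧ (ω + dd^c φ_t)^k → 0` for `k < n`.
(B) By a recursion, `ω ∧ (ω + dd^c u_2) ∧ ... ∧ (ω + dd^c u_n) ({φ ≤ -x}) → 0` as `x → ∞`,
uniformly in the bounded `u_i` with `φ ≤ u_i ≤ c`.
(C) If `φ ≤ u ≤ v ≤ u + N` are bounded and `v` is maximal on a ball `B` then the mass of
`(ω + dd^c u)^n` near `{u = -∞}`, localised in `B`, is small, uniformly: compare `u` and `v` with
`(1 - ε) u - ε x` and use a pigeonhole argument on `x`.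
(D) Let `Y_t` be the balayage of `φ_t` on a ball `B` with `μ(∂B) = 0` and
`b_{N,t} = max(φ_t, Y_t - N)`, which decreases to `φ` as `N, t → ∞`.  For fixed `N`, (C) controls
the limit `t → ∞`; a Jensen inequality on `B` compares it with `μ`. -/

set_option autoImplicit false

open MeasureTheory Filter Set
open scoped Topology

namespace Pool.Agent.Results.MP_e4d6a1_an.FiniteEnergyDMA

open Pool.Agent.K708 (CMfd)
open Pool.Agent.DMA

/-- Let `X` be a compact complex manifold of dimension `n ≥ 1` with a Kähler form `Ω` (a closed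
positive real (1,1)-form), and let `φ` be an `Ω`-plurisubharmonic function in the domain of
definition `DMA(X, Ω)` with Monge–Ampère measure `μ`.  Then
(0) the Monge–Ampère measures of smooth and of bounded `Ω`-psh functions are well defined;
(1) `μ` and the Monge–Ampère measure of `max(φ, -τ)` agree on `{φ > -τ}`, for every `τ`;
(2) if `μ({φ = -∞}) = 0` then `φ ∈ E(X, Ω)`. -/
theorem result (n : ℕ) (hn : 0 < n) (X : CMfd n) (hX : CompactSpace X) (Ω : Form X) (hΩ : IsKahler Ω)
    (φ : X → EReal) (hφ : OPsh (ofForm hΩ) φ) (μ : Measure X) (hμ : InDMA (ofForm hΩ) φ μ) :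
    WellPosed (ofForm hΩ) ∧ NonPluripolar (ofForm hΩ) φ μ ∧
      (μ {x | φ x = ⊥} = 0 → FullMass (ofForm hΩ) φ) := by
  obtain ⟨x0, -⟩ := hφ.ne_bot
  have hne : Nonempty X := ⟨x0⟩
  have h := dma_main hn hX hφ hμ
  exact ⟨wellPosed hn hX hne _, h.1, h.2⟩

end Pool.Agent.Results.MP_e4d6a1_an.FiniteEnergyDMA
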